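import Mathlib

set_option autoImplicit false

/-!
# Non-vanishing of coefficients (MP_257582_lc)
-/

namespace Pool.Agent.W332.Kd

open Finset Polynomial

/-- coefficients of `(1 - X) ^ k` -/
noncomputable def cf (k i : ℕ) : ℤ := ((1 - (X : ℤ[X])) ^ k).coeff i

theorem cf_eq (k i : ℕ) : cf k i = (-1) ^ k * ((-1) ^ (k - i) * (k.choose i : ℤ)) := by
  unfold cf
  have h : (1 - (X : ℤ[X])) ^ k = C ((-1) ^ k) * (X + C (-1)) ^ k := by
    rw [C_pow, ← mul_pow]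
    congr 1
    rw [C_neg, C_1]
    ring
  rw [h, coeff_C_mul, coeff_X_add_C_pow]

theorem cf_ne {k i : ℕ} (h : i ≤ k) : cf k i ≠ 0 := by
  rw [cf_eq]
  have h1 : (k.choose i : ℤ) ≠ 0 := by
    exact_mod_cast (Nat.choose_pos h).ne'
  have h2 : ∀ j : ℕ, (-1 : ℤ) ^ j ≠ 0 := fun j => pow_ne_zero _ (by norm_num)
  exact mul_ne_zero (h2 _) (mul_ne_zero (h2 _) h1)

theorem cf_eq_zero {k i : ℕ} (h : k < i) : cf k i = 0 := by
  rw [cf_eq, Nat.choose_eq_zero_of_lt h]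
  simp

theorem e2 (k : ℕ) : (1 - (X : ℤ[X]) ^ 2) ^ k = expand ℤ 2 ((1 - X) ^ k) := by
  rw [map_pow, map_sub, map_one, expand_X]

theorem e2_even (k i : ℕ) : ((1 - (X : ℤ[X]) ^ 2) ^ k).coeff (2 * i) = cf k i := by
  rw [e2, coeff_expand_mul' (by norm_num)]
  rfl

theorem e2_odd (k i : ℕ) : ((1 - (X : ℤ[X]) ^ 2) ^ k).coeff (2 * i + 1) = 0 := by
  rw [e2, coeff_expand (by norm_num), if_neg (by omega)]

/-- `(1 + X) (1 - X²)^k` -/
theorem p_even (k i : ℕ) : ((1 + (X : ℤ[X])) * (1 - X ^ 2) ^ k).coeff (2 * i) = cf k i := by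
  rw [add_mul, one_mul, coeff_add, e2_even]
  rcases i with _ | i
  · simp
  · rw [show 2 * (i + 1) = (2 * i + 1) + 1 by ring, coeff_X_mul, e2_odd, add_zero]

theorem p_odd (k i : ℕ) : ((1 + (X : ℤ[X])) * (1 - X ^ 2) ^ k).coeff (2 * i + 1) = cf k i := by
  rw [add_mul, one_mul, coeff_add, e2_odd, coeff_X_mul, e2_even, zero_add]

theorem m_even (k i : ℕ) : ((1 - (X : ℤ[X])) * (1 - X ^ 2) ^ k).coeff (2 * i) = cf k i := by
  rw [sub_mul, one_mul, coeff_sub, e2_even]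
  rcases i with _ | i
  · simp
  · rw [show 2 * (i + 1) = (2 * i + 1) + 1 by ring, coeff_X_mul, e2_odd, sub_zero]

theorem m_odd (k i : ℕ) : ((1 - (X : ℤ[X])) * (1 - X ^ 2) ^ k).coeff (2 * i + 1) = -cf k i := by
  rw [sub_mul, one_mul, coeff_sub, e2_odd, coeff_X_mul, e2_even, zero_sub]

theorem p_ne {k j : ℕ} (h : j ≤ 2 * k + 1) : ((1 + (X : ℤ[X])) * (1 - X ^ 2) ^ k).coeff j ≠ 0 := by
  rcases Nat.even_or_odd' j with ⟨i, rfl | rfl⟩
  · rw [p_even]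
    exact cf_ne (by omega)
  · rw [p_odd]
    exact cf_ne (by omega)

theorem p_zero {k j : ℕ} (h : 2 * k + 1 < j) :
    ((1 + (X : ℤ[X])) * (1 - X ^ 2) ^ k).coeff j = 0 := by
  rcases Nat.even_or_odd' j with ⟨i, rfl | rfl⟩
  · rw [p_even]
    exact cf_eq_zero (by omega)
  · rw [p_odd]
    exact cf_eq_zero (by omega)

theorem m_ne {k j : ℕ} (h : j ≤ 2 * k + 1) : ((1 - (X : ℤ[X])) * (1 - X ^ 2) ^ k).coeff j ≠ 0 := by
  rcases Nat.even_or_odd' j with ⟨i, rfl | rfl⟩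
  · rw [m_even]
    exact cf_ne (by omega)
  · rw [m_odd]
    exact neg_ne_zero.2 (cf_ne (by omega))

/-- case 3 -/
theorem sq_odd (k s : ℕ) (h : s ≤ k) :
    ((1 - (X : ℤ[X])) ^ 2 * (1 - X ^ 2) ^ k).coeff (2 * s + 1) ≠ 0 := by
  have h1 : (1 - (X : ℤ[X])) ^ 2 * (1 - X ^ 2) ^ k =
      (1 - X) * (1 - X ^ 2) ^ k - X * ((1 - X) * (1 - X ^ 2) ^ k) := by ring
  rw [h1, coeff_sub, m_odd, coeff_X_mul, m_even]
  have := cf_ne h
  omega

/-- product with an expanded polynomial -/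
theorem coeff_mul_expand (Q : ℕ) (hQ : 0 < Q) (F G : ℤ[X]) (hF : ∀ a, Q ≤ a → F.coeff a = 0)
    (t : ℕ) : (F * expand ℤ Q G).coeff t = F.coeff (t % Q) * G.coeff (t / Q) := by
  rw [coeff_mul, Finset.sum_eq_single (t % Q, Q * (t / Q))]
  · rw [coeff_expand_mul' hQ]
  · rintro ⟨a, b⟩ hab hne
    rw [Finset.HasAntidiagonal.mem_antidiagonal] at hab
    simp only at hab ⊢
    by_cases ha : Q ≤ a
    · rw [hF a ha, zero_mul]
    · rw [coeff_expand hQ]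
      by_cases hb : Q ∣ b
      · exfalso
        obtain ⟨u, rfl⟩ := hb
        apply hne
        have h1 : t % Q = a := by
          rw [← hab, Nat.add_mul_mod_self_left, Nat.mod_eq_of_lt (by omega)]
        have h2 : t / Q = u := by
          rw [← hab, Nat.add_mul_div_left _ _ hQ, Nat.div_eq_of_lt (by omega), zero_add]
        rw [h1, h2]
      · rw [if_neg hb, mul_zero]
  · intro h
    exfalso
    apply h
    rw [Finset.HasAntidiagonal.mem_antidiagonal]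
    exact Nat.mod_add_div t Q

/-- case 4 -/
theorem wr_ne (Q k₁ k₂ t : ℕ) (hQ : Q = 2 * k₁ + 3) (ht : ¬ Q ∣ t + 1)
    (ht2 : t < Q * (2 * k₂ + 2)) :
    ((1 + (X : ℤ[X])) * (1 - X ^ 2) ^ k₁ * expand ℤ Q ((1 - X) * (1 - X ^ 2) ^ k₂)).coeff t ≠ 0 := by
  rw [coeff_mul_expand Q (by omega) _ _ (fun a ha => p_zero (by omega))]
  refine mul_ne_zero (p_ne ?_) (m_ne ?_)
  · have h1 : t % Q < Q := Nat.mod_lt _ (by omega)
    have h2 : t % Q ≠ Q - 1 := by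
      intro h
      apply ht
      rw [Nat.dvd_iff_mod_eq_zero, Nat.add_mod, h]
      have h3 : 1 % Q = 1 := Nat.mod_eq_of_lt (by omega)
      rw [h3, show Q - 1 + 1 = Q by omega, Nat.mod_self]
    omega
  · have : t / Q < 2 * k₂ + 2 := by
      rw [Nat.div_lt_iff_lt_mul (by omega), mul_comm]
      exact ht2
    omega

end Pool.Agent.W332.Kd
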