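import Mathlib
import Pool.Agent.H119R2.Kp.Rel

set_option autoImplicit false

/-!
# Orbit relations for Cayley graphs of abelian groups (MP_257582_lc)
-/

namespace Pool.Agent.W332.Kd

open Finset
open Pool.Agent.H98R2.Ev (EV toG NE)
open Pool.Agent.H119R2.Kp

section Cay

variable {A : Type} [AddCommGroup A]

/-- The Cayley graph with connection set `T ∪ -T` (without loops). -/
def cay (T : Finset A) : SimpleGraph A where
  Adj u v := u ≠ v ∧ (v - u ∈ T ∨ u - v ∈ T)
  symm := ⟨fun _ _ h => ⟨h.1.symm, h.2.symm⟩⟩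
  loopless := ⟨fun _ h => h.1 rfl⟩

/-- symmetric connection set without `0` -/
structure Sy (T : Finset A) : Prop where
  zero : (0 : A) ∉ T
  neg : ∀ a, a ∈ T → -a ∈ T

theorem cay_adj {T : Finset A} (hT : Sy T) (u v : A) : (cay T).Adj u v ↔ v - u ∈ T := by
  constructor
  · rintro ⟨_, h | h⟩
    · exact h
    · have := hT.neg _ h
      rwa [neg_sub] at this
  · intro h
    refine ⟨?_, Or.inl h⟩
    rintro rfl
    rw [sub_self] at h
    exact hT.zero h

/-- a partition of the non-zero elements into symmetric connection sets -/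
structure Part {κ : Type} (T : κ → Finset A) : Prop where
  sy : ∀ j, Sy (T j)
  ne : ∀ j, (T j).Nonempty
  disj : ∀ i j, i ≠ j → Disjoint (T i) (T j)
  cover : ∀ a, a ≠ 0 → ∃ j, a ∈ T j

theorem Part.sy_biUnion [DecidableEq A] {κ : Type} {T : κ → Finset A} (hT : Part T) (I : Finset κ) :
    Sy (I.biUnion T) := by
  constructor
  · intro h
    rw [mem_biUnion] at h
    obtain ⟨j, -, hj⟩ := h
    exact (hT.sy j).zero hj
  · intro a h
    rw [mem_biUnion] at h ⊢
    obtain ⟨j, hj, hj'⟩ := h
    exact ⟨j, hj, (hT.sy j).neg a hj'⟩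

end Cay

open RelAux in
open Classical in
theorem relC {n : ℕ} {P : SimpleGraph (Fin n) → Prop} (hn : 2 ≤ n)
    (hP : GP n (n.choose 2 - 1) P) {A : Type} [AddCommGroup A] [Fintype A]
    [DecidableEq A] (hA : Fintype.card A = n) (p : ℕ) [Fact p.Prime] {ι : Type} [Fintype ι]
    (a : ι → Equiv.Perm A) (c : Equiv.Perm A)
    (hcomm : ∀ i j, a i * a j = a j * a i) (hap : ∀ i, a i ^ p = 1)
    (hca : ∀ i, c⁻¹ * a i * c ∈ Subgroup.closure (Set.range a))
    {κ : Type} [Fintype κ] (T : κ → Finset A) (hT : Part T)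
    (hTa : ∀ j i u v, v - u ∈ T j → a i v - a i u ∈ T j)
    (hTc : ∀ j u v, v - u ∈ T j → c v - c u ∈ T j)
    (htr : ∀ j u v u' v', v - u ∈ T j → v' - u' ∈ T j →
      ∃ g ∈ Subgroup.closure (insert c (Set.range a)), (g u = u' ∧ g v = v') ∨ (g u = v' ∧ g v = u')) :
    ∑ I : Finset κ, (-1 : ℤ) ^ I.card *
      (if PV P A (cay (I.biUnion T)) then 1 else 0) = 0 := by
  obtain ⟨m, ⟨e⟩⟩ : ∃ m, Nonempty (Fin m ≃ κ) := ⟨Fintype.card κ, ⟨(Fintype.equivFin κ).symm⟩⟩
  set R : Fin m → SimpleGraph A := fun j => cay (T (e j)) with hR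
  have hRadj : ∀ j u v, (R j).Adj u v ↔ v - u ∈ T (e j) := fun j u v => cay_adj (hT.sy (e j)) u v
  have hdis : ∀ i j, i ≠ j → Disjoint (R i) (R j) := by
    intro i j hij
    rw [disjoint_iff]
    ext u v
    rw [SimpleGraph.inf_adj, hRadj, hRadj]
    constructor
    · rintro ⟨h1, h2⟩
      exact absurd h2 (Finset.disjoint_left.1 (hT.disj (e i) (e j) (fun h => hij (e.injective h))) h1)
    · intro h
      exact absurd h (by simp)
  have hcard : ∑ j, Nat.card (R j).edgeSet = n.choose 2 := by
    have h1 : ∑ j, Nat.card (R j).edgeSet = (univ.biUnion fun j => ED (R j)).card := by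
      rw [Finset.card_biUnion]
      · exact Finset.sum_congr rfl fun j _ => (card_ED (R j)).symm
      · intro i _ j _ hij
        change Disjoint (ED (R i)) (ED (R j))
        rw [Finset.disjoint_left]
        rintro ⟨x, hx⟩ h1 h2
        rw [mem_ED] at h1 h2
        revert hx h1 h2
        refine Sym2.ind (fun u v => ?_) x
        intro _ h1 h2
        exact (hdis i j hij).le_bot (show (R i ⊓ R j).Adj u v from ⟨h1, h2⟩)
    rw [h1]
    have h2 : (univ.biUnion fun j => ED (R j)) = univ := by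
      rw [Finset.eq_univ_iff_forall]
      rintro ⟨x, hx⟩
      rw [mem_biUnion]
      revert hx
      refine Sym2.ind (fun u v => ?_) x
      intro hx
      rw [Sym2.mk_isDiag_iff] at hx
      obtain ⟨k, hk⟩ := hT.cover (v - u) (by
        intro h
        exact hx (sub_eq_zero.1 h).symm)
      refine ⟨e.symm k, mem_univ _, ?_⟩
      rw [mem_ED]
      change (R (e.symm k)).Adj u v
      rw [hRadj, Equiv.apply_symm_apply]
      exact hk
    rw [h2, Finset.card_univ, Sym2.card_subtype_not_diag, hA]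
  have hpos : 0 < n.choose 2 := Nat.choose_pos hn
  have key := rel hP hA p a c hcomm hap hca (⊥ : SimpleGraph A) R
    (by intro i u v h; exact absurd h (by simp)) (by intro u v h; exact absurd h (by simp))
    (by intro j i u v h; rw [hRadj] at h ⊢; exact hTa _ _ _ _ h)
    (by intro j u v h; rw [hRadj] at h ⊢; exact hTc _ _ _ h)
    hdis (fun _ => disjoint_bot_left)
    (by
      intro j
      obtain ⟨x, hx⟩ := hT.ne (e j)
      refine ⟨0, x, ?_⟩
      rw [hRadj, sub_zero]
      exact hx)
    (by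
      intro j u v u' v' h h'
      rw [hRadj] at h h'
      exact htr _ _ _ _ _ h h')
    (by rw [hcard]; omega)
  refine Eq.trans ?_ key
  refine (Fintype.sum_equiv (Equiv.finsetCongr e) _ _ ?_).symm
  intro I
  have h1 : (Equiv.finsetCongr e I).card = I.card := by
    rw [Equiv.finsetCongr_apply, card_map]
  have h2 : (⊥ ⊔ ⨆ j ∈ I, R j) = cay ((Equiv.finsetCongr e I).biUnion T) := by
    ext u v
    rw [bot_sup_eq, cay_adj (hT.sy_biUnion _), mem_biUnion]
    simp only [SimpleGraph.iSup_adj, hRadj, Equiv.finsetCongr_apply, mem_map_equiv]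
    constructor
    · rintro ⟨j, hj, h⟩
      exact ⟨e j, by simpa using hj, h⟩
    · rintro ⟨k, hk, h⟩
      exact ⟨e.symm k, hk, by simpa using h⟩
  rw [h1, h2]

end Pool.Agent.W332.Kd
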