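import Mathlib
import Pool.Agent.W332.Kd.Cay

set_option autoImplicit false

/-!
# Alternating sums over weighted subsets as coefficients (MP_257582_lc)
-/

namespace Pool.Agent.W332.Kd

open Finset Polynomial
open Pool.Agent.H98R2.Ev (EV toG NE)
open Pool.Agent.H119R2.Kp

theorem sum_range_coeff (F G : ℤ[X]) (h : F = (1 - X) * G) (t : ℕ) :
    ∑ k ∈ range (t + 1), F.coeff k = G.coeff t := by
  induction t with
  | zero =>
    rw [zero_add, Finset.sum_range_one, h]
    simp [sub_mul, mul_coeff_zero]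
  | succ t ih =>
    rw [Finset.sum_range_succ, ih, h, sub_mul, one_mul, coeff_sub, coeff_X_mul]
    ring

theorem prod_one_sub {κ : Type} [Fintype κ] (w : κ → ℕ) :
    ∏ j, (1 - (X : ℤ[X]) ^ w j) =
      ∑ I : Finset κ, (C ((-1 : ℤ) ^ I.card)) * X ^ (∑ j ∈ I, w j) := by
  classical
  have h1 : ∀ j, (1 - (X : ℤ[X]) ^ w j) = (C (-1) * X ^ w j) + 1 := by
    intro j
    rw [C_neg, C_1]
    ring
  rw [Finset.prod_congr rfl fun j _ => h1 j, Finset.prod_add, Finset.powerset_univ]
  refine Finset.sum_congr rfl fun I _ => ?_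
  rw [Finset.prod_const_one, mul_one, Finset.prod_mul_distrib, Finset.prod_const,
    Finset.prod_pow_eq_pow_sum, C_pow]

theorem subset_sum {κ : Type} [Fintype κ] (w : κ → ℕ) (t : ℕ) :
    ∑ I : Finset κ, (-1 : ℤ) ^ I.card * (if ∑ j ∈ I, w j < t then 1 else 0) =
      ∑ k ∈ range t, (∏ j, (1 - (X : ℤ[X]) ^ w j)).coeff k := by
  rw [prod_one_sub]
  simp only [finsetSum_coeff, coeff_C_mul, coeff_X_pow]
  rw [Finset.sum_comm]
  refine Finset.sum_congr rfl fun I _ => ?_
  rw [← Finset.mul_sum]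
  congr 1
  rw [Finset.sum_ite_eq']
  simp only [mem_range]

/-- The relation in terms of the generating function. -/
theorem relG {n : ℕ} {P : SimpleGraph (Fin n) → Prop} (hn : 2 ≤ n)
    (hP : GP n (n.choose 2 - 1) P) {A : Type} [AddCommGroup A] [Fintype A]
    [DecidableEq A] (hA : Fintype.card A = n) (p : ℕ) [Fact p.Prime] {ι : Type} [Fintype ι]
    (a : ι → Equiv.Perm A) (c : Equiv.Perm A)
    (hcomm : ∀ i j, a i * a j = a j * a i) (hap : ∀ i, a i ^ p = 1)
    (hca : ∀ i, c⁻¹ * a i * c ∈ Subgroup.closure (Set.range a))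
    {κ : Type} [Fintype κ] (T : κ → Finset A) (hT : Part T)
    (hTa : ∀ j i u v, v - u ∈ T j → a i v - a i u ∈ T j)
    (hTc : ∀ j u v, v - u ∈ T j → c v - c u ∈ T j)
    (htr : ∀ j u v u' v', v - u ∈ T j → v' - u' ∈ T j →
      ∃ g ∈ Subgroup.closure (insert c (Set.range a)), (g u = u' ∧ g v = v') ∨ (g u = v' ∧ g v = u'))
    (t : ℕ) (hdeg : ∀ S : Finset A, Sy S → (PV P A (cay S) ↔ t + 1 ≤ S.card))
    (G : ℤ[X]) (hG : ∏ j, (1 - (X : ℤ[X]) ^ (T j).card) = (1 - X) * G) :
    G.coeff t = 0 := by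
  classical
  have key := relC hn hP hA p a c hcomm hap hca T hT hTa hTc htr
  have hcard : ∀ I : Finset κ, (I.biUnion T).card = ∑ j ∈ I, (T j).card := by
    intro I
    rw [Finset.card_biUnion]
    intro i _ j _ hij
    exact hT.disj i j hij
  have h0 : Nonempty κ := by
    have : Nontrivial A := by
      rw [← Fintype.one_lt_card_iff_nontrivial, hA]
      omega
    obtain ⟨x, hx⟩ := exists_ne (0 : A)
    obtain ⟨j, _⟩ := hT.cover x hx
    exact ⟨j⟩
  have htot : ∑ I : Finset κ, (-1 : ℤ) ^ I.card = 0 := by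
    have := Finset.sum_powerset_neg_one_pow_card (x := (univ : Finset κ))
    rw [if_neg (Finset.univ_nonempty.ne_empty), Finset.powerset_univ] at this
    exact this
  have h1 : ∑ I : Finset κ, (-1 : ℤ) ^ I.card * (if ∑ j ∈ I, (T j).card < t + 1 then 1 else 0)
      = 0 := by
    refine Eq.trans ?_ (sub_eq_zero.2 (htot.trans key.symm))
    rw [← Finset.sum_sub_distrib]
    refine Finset.sum_congr rfl fun I _ => ?_
    have h2 := hdeg _ (hT.sy_biUnion I)
    rw [hcard] at h2
    by_cases h : t + 1 ≤ ∑ j ∈ I, (T j).card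
    · rw [if_neg (not_lt.2 h), if_pos (h2.2 h)]
      ring
    · rw [if_pos (not_le.1 h), if_neg (fun h' => h (h2.1 h'))]
      ring
  rw [subset_sum, sum_range_coeff _ G hG] at h1
  exact h1

end Pool.Agent.W332.Kd
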