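import Mathlib
import Pool.Agent.W332.Kd.Poly
import Pool.Agent.W332.Kd.Coef

set_option autoImplicit false

/-!
# The partition of an abelian group into the pairs `{a, -a}` (MP_257582_lc)
-/

namespace Pool.Agent.W332.Kd

open Finset Polynomial
open Pool.Agent.H98R2.Ev (EV toG NE)
open Pool.Agent.H119R2.Kp

section Rep

variable (A : Type) [AddCommGroup A] [Fintype A] [DecidableEq A]

/-- rank of an element -/
noncomputable def rk (a : A) : ℕ := (Fintype.equivFin A a).val

/-- representatives of the pairs `{a, -a}`, `a ≠ 0` -/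
noncomputable def Rp : Finset A := univ.filter fun a => a ≠ 0 ∧ rk A a ≤ rk A (-a)

/-- the pair of `a` -/
def pr {A : Type} [AddCommGroup A] [DecidableEq A] (a : A) : Finset A := {a, -a}

theorem mem_pr {A : Type} [AddCommGroup A] [DecidableEq A] (a x : A) :
    x ∈ pr a ↔ x = a ∨ x = -a := by
  simp [pr]

variable {A}

theorem rk_inj {a b : A} (h : rk A a = rk A b) : a = b :=
  (Fintype.equivFin A).injective (Fin.ext h)

theorem mem_Rp (a : A) : a ∈ Rp A ↔ a ≠ 0 ∧ rk A a ≤ rk A (-a) := by
  simp [Rp]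

theorem pr_sy {a : A} (ha : a ≠ 0) : Sy (pr a) := by
  constructor
  · rw [mem_pr]
    rintro (h | h)
    · exact ha h.symm
    · exact ha (neg_eq_zero.1 h.symm)
  · intro x
    rw [mem_pr, mem_pr]
    rintro (rfl | rfl)
    · exact Or.inr rfl
    · exact Or.inl (neg_neg _)

theorem pr_disj {a b : A} (ha : a ∈ Rp A) (hb : b ∈ Rp A) (hab : a ≠ b) :
    Disjoint (pr a) (pr b) := by
  rw [mem_Rp] at ha hb
  rw [Finset.disjoint_left]
  intro x hx hx'
  rw [mem_pr] at hx hx'
  have key : a = -b → False := by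
    intro h
    have h1 : -a = b := by rw [h, neg_neg]
    rw [h1] at ha
    have h2 : -b = a := h.symm
    rw [h2] at hb
    exact hab (rk_inj (le_antisymm ha.2 hb.2))
  rcases hx with rfl | rfl <;> rcases hx' with h | h
  · exact hab h
  · exact key h
  · exact key (by rw [← h, neg_neg])
  · exact hab (neg_injective h)

theorem cover_pr (x : A) (hx : x ≠ 0) : ∃ j : Rp A, x ∈ pr j.1 := by
  rcases le_total (rk A x) (rk A (-x)) with h | h
  · exact ⟨⟨x, (mem_Rp x).2 ⟨hx, h⟩⟩, (mem_pr _ _).2 (Or.inl rfl)⟩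
  · refine ⟨⟨-x, (mem_Rp _).2 ⟨neg_ne_zero.2 hx, ?_⟩⟩, (mem_pr _ _).2 (Or.inr (neg_neg x).symm)⟩
    rwa [neg_neg]

theorem part_pr : Part (fun j : Rp A => pr j.1) where
  sy j := pr_sy ((mem_Rp _).1 j.2).1
  ne j := ⟨j.1, (mem_pr _ _).2 (Or.inl rfl)⟩
  disj i j hij := pr_disj i.2 j.2 (fun h => hij (Subtype.ext h))
  cover a ha := cover_pr a ha

theorem card_pr (a : A) : (pr a).card = if -a = a then 1 else 2 := by
  unfold pr
  split_ifs with h
  · rw [h]
    simp
  · rw [Finset.card_pair (fun h' => h h'.symm)]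

/-- the number of involutions -/
noncomputable def inv (A : Type) [AddCommGroup A] [Fintype A] [DecidableEq A] : ℕ :=
  (univ.filter fun a : A => a ≠ 0 ∧ -a = a).card

/-- number of pairs -/
theorem Rp_count : ∃ k, 2 * k + inv A + 1 = Fintype.card A ∧
    (univ.filter fun j : Rp A => ¬ -j.1 = j.1).card = k ∧
    (univ.filter fun j : Rp A => -j.1 = j.1).card = inv A := by
  refine ⟨_, ?_, rfl, ?_⟩
  · have h1 : (univ.biUnion fun j : Rp A => pr j.1) = univ.erase (0 : A) := by
      ext x
      rw [mem_biUnion, mem_erase]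
      constructor
      · rintro ⟨j, -, h⟩
        exact ⟨fun h' => (part_pr.sy j).zero (h' ▸ h), mem_univ _⟩
      · rintro ⟨h, -⟩
        obtain ⟨j, hj⟩ := cover_pr x h
        exact ⟨j, mem_univ _, hj⟩
    have h2 : ∑ j : Rp A, (pr j.1).card = Fintype.card A - 1 := by
      rw [← Finset.card_biUnion (fun i _ j _ hij => part_pr.disj i j hij), h1,
        Finset.card_erase_of_mem (mem_univ _), Finset.card_univ]
    have h3 : ∑ j : Rp A, (pr j.1).card =
        (univ.filter fun j : Rp A => -j.1 = j.1).card +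
          2 * (univ.filter fun j : Rp A => ¬ -j.1 = j.1).card := by
      rw [Finset.sum_congr rfl fun (j : Rp A) _ => card_pr j.1, Finset.sum_ite, Finset.sum_const,
        Finset.sum_const, smul_eq_mul, smul_eq_mul]
      ring
    have h4 : (univ.filter fun j : Rp A => -j.1 = j.1).card = inv A := by
      unfold inv
      refine Finset.card_bij (fun j _ => j.1) ?_ ?_ ?_
      · intro j hj
        rw [mem_filter] at hj ⊢
        exact ⟨mem_univ _, ((mem_Rp _).1 j.2).1, hj.2⟩
      · intro i _ j _ h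
        exact Subtype.ext h
      · intro b hb
        rw [mem_filter] at hb
        refine ⟨⟨b, (mem_Rp _).2 ⟨hb.2.1, by rw [hb.2.2]⟩⟩, ?_, rfl⟩
        rw [mem_filter]
        exact ⟨mem_univ _, hb.2.2⟩
    have h5 : 0 < Fintype.card A := Fintype.card_pos_iff.2 ⟨0⟩
    omega
  · unfold inv
    refine Finset.card_bij (fun j _ => j.1) ?_ ?_ ?_
    · intro j hj
      rw [mem_filter] at hj ⊢
      exact ⟨mem_univ _, ((mem_Rp _).1 j.2).1, hj.2⟩
    · intro i _ j _ h
      exact Subtype.ext h
    · intro b hb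
      rw [mem_filter] at hb
      refine ⟨⟨b, (mem_Rp _).2 ⟨hb.2.1, by rw [hb.2.2]⟩⟩, ?_, rfl⟩
      rw [mem_filter]
      exact ⟨mem_univ _, hb.2.2⟩

/-- the generating function of the pairs -/
theorem prod_pr : ∃ k, 2 * k + inv A + 1 = Fintype.card A ∧
    ∏ j : Rp A, (1 - (X : ℤ[X]) ^ (pr j.1).card) = (1 - X) ^ inv A * (1 - X ^ 2) ^ k := by
  obtain ⟨k, h1, h2, h3⟩ := Rp_count (A := A)
  refine ⟨k, h1, ?_⟩
  have h4 : ∀ j : Rp A, (1 - (X : ℤ[X]) ^ (pr j.1).card) =
      if -j.1 = j.1 then (1 - X) else (1 - X ^ 2) := by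
    intro j
    rw [card_pr]
    split_ifs
    · rw [pow_one]
    · rfl
  rw [Finset.prod_congr rfl fun j _ => h4 j, Finset.prod_ite, Finset.prod_const,
    Finset.prod_const, h2, h3]

end Rep

/-- translations -/
def trl {A : Type} [AddCommGroup A] (a : A) : Equiv.Perm A := Equiv.addRight a

theorem trl_add {A : Type} [AddCommGroup A] (a b : A) : trl (a + b) = trl a * trl b := by
  ext x
  change x + (a + b) = (x + b) + a
  abel

theorem trl_zero {A : Type} [AddCommGroup A] : trl (0 : A) = 1 := by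
  ext x
  change x + 0 = x
  rw [add_zero]

theorem trl_nsmul {A : Type} [AddCommGroup A] (a : A) (k : ℕ) : trl (k • a) = trl a ^ k := by
  induction k with
  | zero => rw [zero_smul, pow_zero, trl_zero]
  | succ k ih => rw [succ_nsmul, trl_add, ih, pow_succ]

/-- Relation for a regular abelian group. -/
theorem regular {n : ℕ} {P : SimpleGraph (Fin n) → Prop} (hn : 2 ≤ n)
    (hP : GP n (n.choose 2 - 1) P) {A : Type} [AddCommGroup A] [Fintype A]
    [DecidableEq A] (hA : Fintype.card A = n) (p : ℕ) [Fact p.Prime] {ι : Type} [Fintype ι]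
    (a : ι → A) (c : A) (hpa : ∀ i, p • a i = 0)
    (hgen : ∀ x : A, trl x ∈ Subgroup.closure (insert (trl c) (Set.range fun i => trl (a i))))
    (t : ℕ) (hdeg : ∀ S : Finset A, Sy S → (PV P A (cay S) ↔ t + 1 ≤ S.card))
    (G : ℤ[X]) (hG : ∀ k, 2 * k + inv A + 1 = n → (1 - (X : ℤ[X])) ^ inv A * (1 - X ^ 2) ^ k =
      (1 - X) * G) :
    G.coeff t = 0 := by
  obtain ⟨k, hk, hprod⟩ := prod_pr (A := A)
  refine relG hn hP hA p (fun i => trl (a i)) (trl c) ?_ ?_ ?_ (fun j : Rp A => pr j.1) part_pr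
    ?_ ?_ ?_ t hdeg G ?_
  · intro i j
    rw [← trl_add, ← trl_add, add_comm]
  · intro i
    rw [← trl_nsmul, hpa, trl_zero]
  · intro i
    have : (trl c)⁻¹ * trl (a i) * trl c = trl (a i) := by
      rw [mul_assoc, ← trl_add, add_comm, trl_add, inv_mul_cancel_left]
    rw [this]
    exact Subgroup.subset_closure ⟨i, rfl⟩
  · intro j i u v h
    change (v + a i) - (u + a i) ∈ _
    rwa [add_sub_add_right_eq_sub]
  · intro j u v h
    change (v + c) - (u + c) ∈ _
    rwa [add_sub_add_right_eq_sub]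
  · intro j u v u' v' h h'
    rw [mem_pr] at h h'
    have hcase : v' - u' = v - u ∨ v' - u' = -(v - u) := by
      rcases h with h | h <;> rcases h' with h' | h' <;> rw [h, h']
      · exact Or.inl rfl
      · exact Or.inr rfl
      · exact Or.inr (neg_neg _).symm
      · exact Or.inl rfl
    rcases hcase with h1 | h1
    · refine ⟨trl (u' - u), hgen _, Or.inl ⟨?_, ?_⟩⟩
      · change u + (u' - u) = u'
        abel
      · change v + (u' - u) = v'
        have : v' = (v' - u') + u' := by abel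
        rw [this, h1]
        abel
    · refine ⟨trl (v' - u), hgen _, Or.inr ⟨?_, ?_⟩⟩
      · change u + (v' - u) = v'
        abel
      · change v + (v' - u) = u'
        have : v' = (v' - u') + u' := by abel
        rw [this, h1]
        abel
  · rw [hprod]
    exact hG k (by rw [hk, hA])

end Pool.Agent.W332.Kd
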