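import Mathlib
import Pool.Agent.W332.Kd.Rep

set_option autoImplicit false

/-!
# The three regular cases (MP_257582_lc)
-/

namespace Pool.Agent.W332.Kd

open Finset Polynomial
open Pool.Agent.H98R2.Ev (EV toG NE)
open Pool.Agent.H119R2.Kp

/-- number of elements of order at most 2 -/
noncomputable def tor (A : Type) [AddCommGroup A] [Fintype A] [DecidableEq A] : ℕ :=
  (univ.filter fun a : A => -a = a).card

theorem inv_add_one (A : Type) [AddCommGroup A] [Fintype A] [DecidableEq A] :
    inv A + 1 = tor A := by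
  unfold inv tor
  have h : (univ.filter fun a : A => a ≠ 0 ∧ -a = a) =
      (univ.filter fun a : A => -a = a).erase 0 := by
    ext x
    simp only [mem_filter, mem_univ, true_and, mem_erase]
  rw [h, Finset.card_erase_of_mem (by simp)]
  have : 0 < (univ.filter fun a : A => -a = a).card :=
    Finset.card_pos.2 ⟨0, by simp⟩
  omega

theorem tor_prod (A B : Type) [AddCommGroup A] [Fintype A] [DecidableEq A]
    [AddCommGroup B] [Fintype B] [DecidableEq B] : tor (A × B) = tor A * tor B := by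
  unfold tor
  rw [← Finset.card_product]
  congr 1
  ext ⟨x, y⟩
  simp only [mem_filter, mem_univ, true_and, mem_product]
  exact Prod.ext_iff

theorem tor_odd {n : ℕ} [NeZero n] (hn : Odd n) : tor (ZMod n) = 1 := by
  unfold tor
  have : (univ.filter fun a : ZMod n => -a = a) = {0} := by
    ext x
    rw [mem_filter, mem_singleton, ZMod.neg_eq_self_iff]
    constructor
    · rintro ⟨-, h | h⟩
      · exact h
      · exfalso
        rw [← h] at hn
        exact absurd hn (by simp)
    · rintro rfl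
      exact ⟨mem_univ _, Or.inl rfl⟩
  rw [this, Finset.card_singleton]

theorem tor_even {n : ℕ} [NeZero n] (hn : Even n) : tor (ZMod n) = 2 := by
  unfold tor
  have hn0 : n ≠ 0 := NeZero.ne n
  obtain ⟨h, hh⟩ := hn
  have hh0 : ((h : ℕ) : ZMod n) ≠ 0 := by
    rw [Ne, ZMod.natCast_eq_zero_iff]
    exact fun h' => absurd (Nat.le_of_dvd (by omega) h') (by omega)
  have hval : ((h : ℕ) : ZMod n).val = h := by
    rw [ZMod.val_natCast, Nat.mod_eq_of_lt (by omega)]
  have : (univ.filter fun a : ZMod n => -a = a) = {0, (h : ZMod n)} := by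
    ext x
    rw [mem_filter, mem_insert, mem_singleton, ZMod.neg_eq_self_iff]
    constructor
    · rintro ⟨-, h1 | h1⟩
      · exact Or.inl h1
      · right
        apply ZMod.val_injective n
        rw [hval]
        omega
    · rintro (rfl | rfl)
      · exact ⟨mem_univ _, Or.inl rfl⟩
      · exact ⟨mem_univ _, Or.inr (by rw [hval]; omega)⟩
  rw [this, Finset.card_pair hh0.symm]

theorem gen_cyc {n : ℕ} [NeZero n] {ι : Type} (a : ι → ZMod n) (x : ZMod n) :
    trl x ∈ Subgroup.closure (insert (trl (1 : ZMod n)) (Set.range fun i => trl (a i))) := by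
  have h : x = x.val • (1 : ZMod n) := by
    rw [nsmul_eq_mul, mul_one, ZMod.natCast_zmod_val]
  rw [h, trl_nsmul]
  exact Subgroup.pow_mem _ (Subgroup.subset_closure (Set.mem_insert _ _)) _

/-- `n` odd -/
theorem case_odd {n : ℕ} {P : SimpleGraph (Fin n) → Prop} (hn : 2 ≤ n) (ho : Odd n)
    (hP : GP n (n.choose 2 - 1) P) (t : ℕ) (ht : t + 2 ≤ n)
    (hdeg : ∀ (A : Type) [AddCommGroup A] [Fintype A], Fintype.card A = n →
      ∀ S : Finset A, Sy S → (PV P A (cay S) ↔ t + 1 ≤ S.card)) : False := by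
  have : NeZero n := ⟨by omega⟩
  have : Fact (Nat.Prime 2) := ⟨Nat.prime_two⟩
  obtain ⟨k, hk⟩ : ∃ k, n = 2 * k + 3 := by
    obtain ⟨j, hj⟩ := ho
    exact ⟨j - 1, by omega⟩
  have hinv : inv (ZMod n) = 0 := by
    have := inv_add_one (ZMod n)
    rw [tor_odd ho] at this
    omega
  have key := regular hn hP (A := ZMod n) (ZMod.card n) 2 (ι := Empty) (fun i => i.elim) 1
    (fun i => i.elim) (gen_cyc _) t (hdeg (ZMod n) (ZMod.card n))
    ((1 + X) * (1 - X ^ 2) ^ k) (by
      intro k' hk'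
      rw [hinv] at hk' ⊢
      have : k' = k + 1 := by omega
      rw [this]
      ring)
  exact p_ne (by omega) key

/-- `n` even, `t` even -/
theorem case_even {n : ℕ} {P : SimpleGraph (Fin n) → Prop} (hn : 2 ≤ n) (he : Even n)
    (hP : GP n (n.choose 2 - 1) P) (t : ℕ) (ht : t + 2 ≤ n) (hte : Even t)
    (hdeg : ∀ (A : Type) [AddCommGroup A] [Fintype A], Fintype.card A = n →
      ∀ S : Finset A, Sy S → (PV P A (cay S) ↔ t + 1 ≤ S.card)) : False := by
  have : NeZero n := ⟨by omega⟩
  have : Fact (Nat.Prime 2) := ⟨Nat.prime_two⟩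
  obtain ⟨k, hk⟩ : ∃ k, n = 2 * k + 2 := by
    obtain ⟨j, hj⟩ := he
    exact ⟨j - 1, by omega⟩
  have hinv : inv (ZMod n) = 1 := by
    have := inv_add_one (ZMod n)
    rw [tor_even he] at this
    omega
  have key := regular hn hP (A := ZMod n) (ZMod.card n) 2 (ι := Empty) (fun i => i.elim) 1
    (fun i => i.elim) (gen_cyc _) t (hdeg (ZMod n) (ZMod.card n))
    ((1 - X ^ 2) ^ k) (by
      intro k' hk'
      rw [hinv] at hk' ⊢
      have : k' = k := by omega
      rw [this, pow_one])
  obtain ⟨i, hi⟩ := hte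
  rw [show t = 2 * i by omega, e2_even] at key
  exact cf_ne (by omega) key

theorem two_nsmul_zmod : ∀ x : ZMod 2, (2 : ℕ) • x = 0 := by decide

/-- `4 ∣ n`, `t` odd -/
theorem case_four {n : ℕ} {P : SimpleGraph (Fin n) → Prop} (hn : 2 ≤ n) (h4 : 4 ∣ n)
    (hP : GP n (n.choose 2 - 1) P) (t : ℕ) (ht : t + 2 ≤ n) (hto : Odd t)
    (hdeg : ∀ (A : Type) [AddCommGroup A] [Fintype A], Fintype.card A = n →
      ∀ S : Finset A, Sy S → (PV P A (cay S) ↔ t + 1 ≤ S.card)) : False := by
  obtain ⟨r, hr⟩ := h4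
  have hr0 : 0 < r := by omega
  have : NeZero (2 * r) := ⟨by omega⟩
  have : Fact (Nat.Prime 2) := ⟨Nat.prime_two⟩
  have hcard : Fintype.card (ZMod 2 × ZMod (2 * r)) = n := by
    rw [Fintype.card_prod, ZMod.card, ZMod.card, hr]
    ring
  have hinv : inv (ZMod 2 × ZMod (2 * r)) = 3 := by
    have := inv_add_one (ZMod 2 × ZMod (2 * r))
    rw [tor_prod, tor_even (by decide), tor_even (even_two_mul r)] at this
    omega
  have key := regular hn hP (A := ZMod 2 × ZMod (2 * r)) hcard 2 (ι := Unit)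
    (fun _ => (1, 0)) (0, 1)
    (by
      intro _
      rw [Prod.smul_mk, smul_zero]
      exact Prod.ext (two_nsmul_zmod 1) rfl)
    (by
      rintro ⟨x, y⟩
      have h1 : ((x, y) : ZMod 2 × ZMod (2 * r)) =
          x.val • ((1, 0) : ZMod 2 × ZMod (2 * r)) + y.val • ((0, 1) : ZMod 2 × ZMod (2 * r)) := by
        rw [Prod.smul_mk, Prod.smul_mk, smul_zero, smul_zero, Prod.mk_add_mk, zero_add, add_zero,
          nsmul_eq_mul, mul_one, nsmul_eq_mul, mul_one, ZMod.natCast_zmod_val,
          ZMod.natCast_zmod_val]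
      rw [h1, trl_add, trl_nsmul, trl_nsmul]
      refine Subgroup.mul_mem _ (Subgroup.pow_mem _ (Subgroup.subset_closure ?_) _)
        (Subgroup.pow_mem _ (Subgroup.subset_closure (Set.mem_insert _ _)) _)
      exact Set.mem_insert_of_mem _ ⟨(), rfl⟩)
    t (hdeg _ hcard) ((1 - X) ^ 2 * (1 - X ^ 2) ^ (2 * r - 2)) (by
      intro k' hk'
      rw [hinv] at hk' ⊢
      have : k' = 2 * r - 2 := by omega
      rw [this]
      ring)
  obtain ⟨i, hi⟩ := hto
  rw [hi] at key
  exact sq_odd _ _ (by omega) key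

end Pool.Agent.W332.Kd
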