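import Mathlib
import Pool.Agent.W332.Kd.Reg3

set_option autoImplicit false

/-!
# The wreath product case (MP_257582_lc)
-/

namespace Pool.Agent.W332.Kd

open Finset Polynomial
open Pool.Agent.H98R2.Ev (EV toG NE)
open Pool.Agent.H119R2.Kp

section Wr

variable {m b p : ℕ}

/-- the elementary abelian group acting on the blocks -/
abbrev EE (b p : ℕ) : Type := Fin b → ZMod p

/-- independent translations of the blocks -/
def blk (f : ZMod m → EE b p) : Equiv.Perm (ZMod m × EE b p) where
  toFun z := (z.1, z.2 + f z.1)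
  invFun z := (z.1, z.2 - f z.1)
  left_inv z := by simp
  right_inv z := by simp

theorem blk_apply (f : ZMod m → EE b p) (z : ZMod m × EE b p) : blk f z = (z.1, z.2 + f z.1) := rfl

theorem blk_zero : blk (0 : ZMod m → EE b p) = 1 := by
  ext z : 1
  rw [blk_apply]
  simp

theorem blk_add (f g : ZMod m → EE b p) : blk (f + g) = blk f * blk g := by
  ext z : 1
  rw [Equiv.Perm.mul_apply, blk_apply, blk_apply, blk_apply]
  simp only [Pi.add_apply]
  refine Prod.ext rfl ?_
  change z.2 + (f z.1 + g z.1) = z.2 + g z.1 + f z.1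
  abel

theorem blk_nsmul (f : ZMod m → EE b p) (k : ℕ) : blk (k • f) = blk f ^ k := by
  induction k with
  | zero => rw [zero_smul, pow_zero, blk_zero]
  | succ k ih => rw [succ_nsmul, blk_add, ih, pow_succ]

/-- the generators of the normal subgroup -/
def ga (i : ZMod m × Fin b) : Equiv.Perm (ZMod m × EE b p) :=
  blk (Pi.single i.1 (Pi.single i.2 1))

/-- the additive group of all `f` with `blk f` in a given subgroup -/
def sgp (H : Subgroup (Equiv.Perm (ZMod m × EE b p))) : AddSubgroup (ZMod m → EE b p) where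
  carrier := {f | blk f ∈ H}
  zero_mem' := by
    change blk 0 ∈ H
    rw [blk_zero]
    exact H.one_mem
  add_mem' := by
    intro f g hf hg
    change blk (f + g) ∈ H
    rw [blk_add]
    exact H.mul_mem hf hg
  neg_mem' := by
    intro f hf
    change blk (-f) ∈ H
    have : blk (-f) = (blk f)⁻¹ := by
      rw [eq_inv_iff_mul_eq_one, ← blk_add, neg_add_cancel, blk_zero]
    rw [this]
    exact H.inv_mem hf

theorem blk_mem [NeZero m] [NeZero p] (f : ZMod m → EE b p) :
    blk f ∈ Subgroup.closure (Set.range (ga (m := m) (b := b) (p := p))) := by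
  suffices h : f ∈ sgp (Subgroup.closure (Set.range (ga (m := m) (b := b) (p := p)))) from h
  rw [← Finset.univ_sum_single f]
  refine AddSubgroup.sum_mem _ fun i _ => ?_
  have h1 : (Pi.single i (f i) : ZMod m → EE b p) =
      ∑ k, Pi.single i (Pi.single k (f i k)) := by
    conv_lhs => rw [← Finset.univ_sum_single (f i)]
    exact map_sum (AddMonoidHom.single (fun _ : ZMod m => EE b p) i) _ _
  rw [h1]
  refine AddSubgroup.sum_mem _ fun k _ => ?_
  have h2 : (Pi.single i (Pi.single k (f i k)) : ZMod m → EE b p) =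
      (f i k).val • Pi.single i (Pi.single k 1) := by
    have h3 : (f i k) = (f i k).val • (1 : ZMod p) := by
      rw [nsmul_eq_mul, mul_one, ZMod.natCast_zmod_val]
    conv_lhs => rw [h3]
    rw [← Pi.single_smul, ← Pi.single_smul]
  rw [h2]
  refine AddSubgroup.nsmul_mem _ ?_ _
  exact Subgroup.subset_closure ⟨(i, k), rfl⟩

/-- the blocks of the partition -/
noncomputable def wT [NeZero m] [NeZero p] :
    (Rp (EE b p)) ⊕ (Rp (ZMod m)) → Finset (ZMod m × EE b p)
  | .inl x => {0} ×ˢ pr x.1
  | .inr d => pr d.1 ×ˢ univ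

theorem mem_inl [NeZero m] [NeZero p] (x : Rp (EE b p)) (z : ZMod m × EE b p) :
    z ∈ wT (m := m) (.inl x) ↔ z.1 = 0 ∧ z.2 ∈ pr x.1 := by
  change z ∈ ({0} : Finset (ZMod m)) ×ˢ pr x.1 ↔ _
  rw [mem_product, mem_singleton]

theorem mem_inr [NeZero m] [NeZero p] (d : Rp (ZMod m)) (z : ZMod m × EE b p) :
    z ∈ wT (b := b) (p := p) (.inr d) ↔ z.1 ∈ pr d.1 := by
  change z ∈ pr d.1 ×ˢ (univ : Finset (EE b p)) ↔ _
  rw [mem_product]
  exact and_iff_left (mem_univ _)

theorem part_w [NeZero m] [NeZero p] : Part (wT (m := m) (b := b) (p := p)) where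
  sy j := by
    rcases j with x | d
    · constructor
      · rw [mem_inl]
        rintro ⟨-, h⟩
        exact (part_pr.sy x).zero h
      · intro a
        rw [mem_inl, mem_inl]
        rintro ⟨h1, h2⟩
        exact ⟨by rw [Prod.fst_neg, h1, neg_zero], (part_pr.sy x).neg _ h2⟩
    · constructor
      · rw [mem_inr]
        exact (part_pr.sy d).zero
      · intro a
        rw [mem_inr, mem_inr]
        exact (part_pr.sy d).neg _
  ne j := by
    rcases j with x | d
    · exact ⟨(0, x.1), (mem_inl _ _).2 ⟨rfl, (mem_pr _ _).2 (Or.inl rfl)⟩⟩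
    · exact ⟨(d.1, 0), (mem_inr _ _).2 ((mem_pr _ _).2 (Or.inl rfl))⟩
  disj i j hij := by
    rw [Finset.disjoint_left]
    intro z hz hz'
    rcases i with x | d <;> rcases j with y | e
    · rw [mem_inl] at hz hz'
      exact Finset.disjoint_left.1 (part_pr.disj x y (fun h => hij (by rw [h]))) hz.2 hz'.2
    · rw [mem_inl] at hz
      rw [mem_inr, hz.1] at hz'
      exact (part_pr.sy e).zero hz'
    · rw [mem_inl] at hz'
      rw [mem_inr, hz'.1] at hz
      exact (part_pr.sy d).zero hz
    · rw [mem_inr] at hz hz'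
      exact Finset.disjoint_left.1 (part_pr.disj d e (fun h => hij (by rw [h]))) hz hz'
  cover z hz := by
    by_cases h : z.1 = 0
    · have h2 : z.2 ≠ 0 := fun h' => hz (Prod.ext h h')
      obtain ⟨x, hx⟩ := cover_pr z.2 h2
      exact ⟨.inl x, (mem_inl _ _).2 ⟨h, hx⟩⟩
    · obtain ⟨d, hd⟩ := cover_pr z.1 h
      exact ⟨.inr d, (mem_inr _ _).2 hd⟩

theorem card_inl [NeZero m] [NeZero p] (x : Rp (EE b p)) :
    (wT (m := m) (.inl x)).card = (pr x.1).card := by
  simp [wT]

theorem card_EE [NeZero p] : Fintype.card (EE b p) = p ^ b := by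
  rw [Fintype.card_fun, ZMod.card, Fintype.card_fin]

theorem card_inr [NeZero m] [NeZero p] (d : Rp (ZMod m)) :
    (wT (b := b) (p := p) (.inr d)).card = (pr d.1).card * p ^ b := by
  rw [wT, Finset.card_product, Finset.card_univ, card_EE]

theorem tor_EE [NeZero p] (hp : Odd p) : tor (EE b p) = 1 := by
  have h1 := tor_odd hp
  unfold tor at h1 ⊢
  rw [Finset.card_eq_one] at h1 ⊢
  obtain ⟨z, hz⟩ := h1
  have h0 : ∀ x : ZMod p, -x = x → x = 0 := by
    intro x hx
    have h2 : x ∈ (univ.filter fun a : ZMod p => -a = a) := by simpa using hx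
    have h3 : (0 : ZMod p) ∈ (univ.filter fun a : ZMod p => -a = a) := by simp
    rw [hz, mem_singleton] at h2 h3
    rw [h2, h3]
  refine ⟨0, ?_⟩
  ext f
  rw [mem_filter, mem_singleton]
  constructor
  · rintro ⟨-, h⟩
    funext i
    exact h0 _ (congrFun h i)
  · rintro rfl
    exact ⟨mem_univ _, neg_zero⟩

theorem pr_cases {A : Type} [AddCommGroup A] [DecidableEq A] {a x y : A} (hx : x ∈ pr a)
    (hy : y ∈ pr a) : y = x ∨ y = -x := by
  rw [mem_pr] at hx hy
  rcases hx with h | h <;> rcases hy with h' | h' <;> rw [h, h']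
  · exact Or.inl rfl
  · exact Or.inr rfl
  · exact Or.inr (neg_neg _).symm
  · exact Or.inl rfl

/-- Relation for the wreath product. -/
theorem wreath {n : ℕ} {P : SimpleGraph (Fin n) → Prop} (hn : 2 ≤ n)
    (hP : GP n (n.choose 2 - 1) P) [NeZero m] [hp : Fact p.Prime] (hpo : Odd p) (hb : 0 < b)
    (hm : Even m) (hnm : m * p ^ b = n)
    (t : ℕ) (hdeg : ∀ S : Finset (ZMod m × EE b p), Sy S →
      (PV P (ZMod m × EE b p) (cay S) ↔ t + 1 ≤ S.card)) (ht : t + 2 ≤ n)
    (htQ : ¬ p ^ b ∣ t + 1) : False := by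
  have : NeZero p := ⟨hp.out.ne_zero⟩
  have hcard : Fintype.card (ZMod m × EE b p) = n := by
    rw [Fintype.card_prod, ZMod.card, card_EE, hnm]
  -- the generating function
  obtain ⟨k, hk, hprod⟩ := prod_pr (A := EE b p)
  obtain ⟨k', hk', hprod'⟩ := prod_pr (A := ZMod m)
  have i1 : inv (EE b p) = 0 := by
    have := inv_add_one (EE b p)
    rw [tor_EE hpo] at this
    omega
  have i2 : inv (ZMod m) = 1 := by
    have := inv_add_one (ZMod m)
    rw [tor_even hm] at this
    omega
  rw [i1, card_EE] at hk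
  rw [i1, pow_zero, one_mul] at hprod
  rw [i2, ZMod.card] at hk'
  rw [i2, pow_one] at hprod'
  set Q := p ^ b with hQ
  have hQp : p ≤ Q := by
    rw [hQ]
    exact Nat.le_self_pow hb.ne' p
  have hp3 : 3 ≤ p := by
    have h1 := hp.out.two_le
    rcases hpo with ⟨j, hj⟩
    omega
  obtain ⟨k₁, hk₁⟩ : ∃ k₁, k = k₁ + 1 := ⟨k - 1, by omega⟩
  have hQk : Q = 2 * k₁ + 3 := by omega
  have hG : ∏ j, (1 - (X : ℤ[X]) ^ (wT (m := m) (b := b) (p := p) j).card) =
      (1 - X) * ((1 + X) * (1 - X ^ 2) ^ k₁ * expand ℤ Q ((1 - X) * (1 - X ^ 2) ^ k')) := by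
    rw [Fintype.prod_sum_type]
    have e1 : ∏ x : Rp (EE b p), (1 - (X : ℤ[X]) ^ (wT (m := m) (b := b) (p := p) (.inl x)).card) =
        (1 - X ^ 2) ^ k := by
      rw [← hprod]
      exact Finset.prod_congr rfl fun x _ => by rw [card_inl]
    have e2 : ∏ d : Rp (ZMod m), (1 - (X : ℤ[X]) ^ (wT (m := m) (b := b) (p := p) (.inr d)).card) =
        expand ℤ Q ((1 - X) * (1 - X ^ 2) ^ k') := by
      rw [← hprod', map_prod]
      refine Finset.prod_congr rfl fun d _ => ?_
      rw [card_inr, map_sub, map_one, map_pow, expand_X, ← pow_mul, mul_comm]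
    rw [e1, e2, hk₁]
    ring
  have hall : ∀ (f : ZMod m → EE b p) (d : ZMod m),
      trl (d, 0) * blk f ∈ Subgroup.closure
        (insert (trl ((1, 0) : ZMod m × EE b p)) (Set.range (ga (m := m) (b := b) (p := p)))) := by
    intro f d
    refine Subgroup.mul_mem _ ?_ ?_
    · have h : ((d, 0) : ZMod m × EE b p) = d.val • ((1, 0) : ZMod m × EE b p) := by
        rw [Prod.smul_mk, smul_zero, nsmul_eq_mul, mul_one, ZMod.natCast_zmod_val]
      rw [h, trl_nsmul]
      exact Subgroup.pow_mem _ (Subgroup.subset_closure (Set.mem_insert _ _)) _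
    · exact Subgroup.closure_mono (Set.subset_insert _ _) (blk_mem f)
  have happ : ∀ (f : ZMod m → EE b p) (d : ZMod m) (z : ZMod m × EE b p),
      (trl ((d, 0) : ZMod m × EE b p) * blk f) z = (z.1 + d, z.2 + f z.1) := by
    intro f d z
    rw [Equiv.Perm.mul_apply, blk_apply]
    change (z.1, z.2 + f z.1) + (d, 0) = _
    rw [Prod.mk_add_mk, add_zero]
  have key := relG hn hP hcard p (ga (m := m) (b := b) (p := p)) (trl (1, 0)) ?_ ?_ ?_
    (wT (m := m) (b := b) (p := p)) part_w ?_ ?_ ?_ t hdeg _ hG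
  · exact wr_ne Q k₁ k' t hQk htQ (by rw [show 2 * k' + 2 = m by omega, mul_comm]; omega) key
  · intro i j
    unfold ga
    rw [← blk_add, ← blk_add, add_comm]
  · intro i
    unfold ga
    rw [← blk_nsmul]
    have : ∀ f : ZMod m → EE b p, p • f = 0 := by
      intro f
      funext i k
      rw [Pi.smul_apply, Pi.smul_apply, nsmul_eq_mul, CharP.cast_eq_zero, zero_mul]
      rfl
    rw [this, blk_zero]
  · intro i
    have h1 : (trl ((1, 0) : ZMod m × EE b p))⁻¹ * ga i * trl (1, 0) =
        blk (fun j => (Pi.single i.1 (Pi.single i.2 1) : ZMod m → EE b p) (j + 1)) := by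
      rw [mul_assoc, inv_mul_eq_iff_eq_mul]
      ext z : 1
      rw [Equiv.Perm.mul_apply, Equiv.Perm.mul_apply]
      unfold ga
      rw [blk_apply, blk_apply]
      have hz : trl ((1, 0) : ZMod m × EE b p) z = (z.1 + 1, z.2) := Prod.ext rfl (add_zero _)
      rw [hz]
      exact Prod.ext rfl (add_zero _).symm
    rw [h1]
    exact blk_mem _
  · intro j i u v h
    unfold ga
    rw [blk_apply, blk_apply]
    rcases j with x | d
    · rw [mem_inl] at h ⊢
      obtain ⟨h1, h2⟩ := h
      rw [Prod.fst_sub, sub_eq_zero] at h1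
      refine ⟨?_, ?_⟩
      · rw [Prod.fst_sub, sub_eq_zero]
        exact h1
      · rw [Prod.snd_sub]
        simp only
        rw [h1, add_sub_add_right_eq_sub]
        exact h2
    · rw [mem_inr] at h ⊢
      exact h
  · intro j u v h
    change (v + (1, 0)) - (u + (1, 0)) ∈ _
    rwa [add_sub_add_right_eq_sub]
  · intro j u v u' v' h h'
    rcases j with x | d
    · rw [mem_inl] at h h'
      obtain ⟨h1, h2⟩ := h
      obtain ⟨h1', h2'⟩ := h'
      rw [Prod.fst_sub, sub_eq_zero] at h1 h1'
      rw [Prod.snd_sub] at h2 h2'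
      rcases pr_cases h2 h2' with h3 | h3
      · refine ⟨_, hall (fun _ => u'.2 - u.2) (u'.1 - u.1), Or.inl ⟨?_, ?_⟩⟩
        · rw [happ]
          exact Prod.ext (by simp) (by simp)
        · rw [happ]
          refine Prod.ext ?_ ?_
          · change v.1 + (u'.1 - u.1) = v'.1
            rw [h1, h1']
            abel
          · change v.2 + (u'.2 - u.2) = v'.2
            have : v'.2 = (v'.2 - u'.2) + u'.2 := by abel
            rw [this, h3]
            abel
      · refine ⟨_, hall (fun _ => v'.2 - u.2) (v'.1 - u.1), Or.inr ⟨?_, ?_⟩⟩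
        · rw [happ]
          exact Prod.ext (by simp) (by simp)
        · rw [happ]
          refine Prod.ext ?_ ?_
          · change v.1 + (v'.1 - u.1) = u'.1
            rw [h1, h1']
            abel
          · change v.2 + (v'.2 - u.2) = u'.2
            have : v'.2 = (v'.2 - u'.2) + u'.2 := by abel
            rw [this, h3]
            abel
    · rw [mem_inr, Prod.fst_sub] at h h'
      have hne : v.1 ≠ u.1 := by
        intro h0
        rw [h0, sub_self] at h
        exact (part_pr.sy d).zero h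
      rcases pr_cases h h' with h3 | h3
      · refine ⟨_, hall (Function.update (fun _ => v'.2 - v.2) u.1 (u'.2 - u.2)) (u'.1 - u.1),
          Or.inl ⟨?_, ?_⟩⟩
        · rw [happ, Function.update_self]
          exact Prod.ext (by simp) (by simp)
        · rw [happ, Function.update_of_ne hne]
          refine Prod.ext ?_ ?_
          · change v.1 + (u'.1 - u.1) = v'.1
            have : v'.1 = (v'.1 - u'.1) + u'.1 := by abel
            rw [this, h3]
            abel
          · change v.2 + (v'.2 - v.2) = v'.2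
            abel
      · refine ⟨_, hall (Function.update (fun _ => u'.2 - v.2) u.1 (v'.2 - u.2)) (v'.1 - u.1),
          Or.inr ⟨?_, ?_⟩⟩
        · rw [happ, Function.update_self]
          exact Prod.ext (by simp) (by simp)
        · rw [happ, Function.update_of_ne hne]
          refine Prod.ext ?_ ?_
          · change v.1 + (v'.1 - u.1) = u'.1
            have : v'.1 = (v'.1 - u'.1) + u'.1 := by abel
            rw [this, h3]
            abel
          · change v.2 + (u'.2 - v.2) = u'.2
            abel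

end Wr

/-- **Main theorem**, in terms of `GP`. -/
theorem no_GP {n : ℕ} {P : SimpleGraph (Fin n) → Prop} (hn : 2 ≤ n)
    (hP : GP n (n.choose 2 - 1) P) (t : ℕ) (ht : t + 2 ≤ n)
    (hdeg : ∀ (A : Type) [AddCommGroup A] [Fintype A], Fintype.card A = n →
      ∀ S : Finset A, Sy S → (PV P A (cay S) ↔ t + 1 ≤ S.card)) : False := by
  rcases Nat.even_or_odd n with he | ho
  swap
  · exact case_odd hn ho hP t ht hdeg
  rcases Nat.even_or_odd t with hte | hto
  · exact case_even hn he hP t ht hte hdeg
  by_cases h4 : 4 ∣ n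
  · exact case_four hn h4 hP t ht hto hdeg
  have hnd : ¬ n ∣ t + 1 := fun h => absurd (Nat.le_of_dvd (by omega) h) (by omega)
  rw [Nat.dvd_iff_prime_pow_dvd_dvd] at hnd
  push Not at hnd
  obtain ⟨p, b, hp, h1, h2⟩ := hnd
  have hpo : Odd p := by
    refine hp.odd_of_ne_two ?_
    rintro rfl
    apply h2
    have hb : b ≤ 1 := by
      by_contra hb
      apply h4
      refine dvd_trans ?_ h1
      exact pow_dvd_pow 2 (show 2 ≤ b by omega)
    refine dvd_trans (pow_dvd_pow 2 hb) ?_
    rw [pow_one]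
    obtain ⟨j, hj⟩ := hto
    exact ⟨j + 1, by omega⟩
  have hb : 0 < b := by
    rcases Nat.eq_zero_or_pos b with h | h
    · exfalso
      apply h2
      rw [h, pow_zero]
      exact one_dvd _
    · exact h
  obtain ⟨m, hm⟩ := h1
  have hm' : m * p ^ b = n := by rw [hm, mul_comm]
  have hme : Even m := by
    rw [hm, Nat.even_mul] at he
    exact he.resolve_left (Nat.not_even_iff_odd.2 hpo.pow)
  have hm0 : m ≠ 0 := by
    rintro rfl
    omega
  have : NeZero m := ⟨hm0⟩
  have : Fact p.Prime := ⟨hp⟩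
  have : NeZero p := ⟨hp.ne_zero⟩
  refine wreath hn hP hpo hb hme hm' t (hdeg (ZMod m × EE b p) ?_) ht h2
  rw [Fintype.card_prod, ZMod.card, card_EE, hm']

end Pool.Agent.W332.Kd
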