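import Mathlib
import Pool.Agent.W332.Kd.Cay

set_option autoImplicit false

/-!
# Properties that depend only on the degree, for vertex-transitive graphs (MP_257582_lc)
-/

namespace Pool.Agent.W332.Kd

open Finset
open Pool.Agent.H98R2.Ev (EV toG NE)
open Pool.Agent.H119R2.Kp

/-- vertex-transitive graphs -/
def VT {V : Type} (G : SimpleGraph V) : Prop := ∀ u v : V, ∃ φ : G ≃g G, φ u = v

/-- every vertex has exactly `d` neighbours -/
def Reg {V : Type} (G : SimpleGraph V) (d : ℕ) : Prop := ∀ v : V, (G.neighborSet v).ncard = d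

theorem VT.map {V W : Type} {G : SimpleGraph V} (h : VT G) (e : V ≃ W) :
    VT (G.map e.toEmbedding) := by
  intro u v
  obtain ⟨φ, hφ⟩ := h (e.symm u) (e.symm v)
  have i : G ≃g G.map e.toEmbedding := SimpleGraph.Iso.map e G
  refine ⟨((SimpleGraph.Iso.map e G).symm.trans φ).trans (SimpleGraph.Iso.map e G), ?_⟩
  have h1 : (SimpleGraph.Iso.map e G).symm u = e.symm u := rfl
  rw [RelIso.trans_apply, RelIso.trans_apply, h1, hφ]
  exact e.apply_symm_apply v

theorem Reg.map {V W : Type} {G : SimpleGraph V} {d : ℕ} (h : Reg G d) (e : V ≃ W) :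
    Reg (G.map e.toEmbedding) d := by
  intro w
  rw [← h (e.symm w)]
  have h1 : (G.map e.toEmbedding).neighborSet w = e '' (G.neighborSet (e.symm w)) := by
    ext x
    rw [SimpleGraph.mem_neighborSet, SimpleGraph.map_adj]
    constructor
    · rintro ⟨u, v, huv, rfl, rfl⟩
      refine ⟨v, ?_, rfl⟩
      rw [SimpleGraph.mem_neighborSet]
      simpa using huv
    · rintro ⟨v, hv, rfl⟩
      rw [SimpleGraph.mem_neighborSet] at hv
      exact ⟨_, v, hv, by simp, rfl⟩
  rw [h1, Set.ncard_image_of_injective _ e.injective]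

theorem VT_of {V : Type} (G : SimpleGraph V)
    (h : ∀ u v : V, ∃ φ : Equiv.Perm V, (∀ x y, G.Adj (φ x) (φ y) ↔ G.Adj x y) ∧ φ u = v) :
    VT G := by
  intro u v
  obtain ⟨φ, h1, h2⟩ := h u v
  exact ⟨⟨φ, fun {a b} => h1 a b⟩, h2⟩

section Cay

variable {A : Type} [AddCommGroup A]

theorem cay_VT {T : Finset A} (hT : Sy T) : VT (cay T) := by
  apply VT_of
  intro u v
  refine ⟨Equiv.addRight (v - u), ?_, by simp⟩
  intro x y
  rw [cay_adj hT, cay_adj hT]
  simp

theorem cay_nbr {T : Finset A} (hT : Sy T) (v : A) :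
    (cay T).neighborSet v = (fun x => v + x) '' (T : Set A) := by
  ext x
  rw [SimpleGraph.mem_neighborSet, cay_adj hT]
  constructor
  · intro h
    exact ⟨x - v, h, by simp⟩
  · rintro ⟨y, hy, rfl⟩
    simpa using hy

theorem cay_Reg {T : Finset A} (hT : Sy T) : Reg (cay T) T.card := by
  intro v
  rw [cay_nbr hT, Set.ncard_image_of_injective _ (add_right_injective v), Set.ncard_coe_finset]

theorem cay_mono {S T : Finset A} (h : S ⊆ T) : cay S ≤ cay T := by
  intro u v huv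
  exact ⟨huv.1, huv.2.imp (fun h' => h h') (fun h' => h h')⟩

end Cay

/-- membership of the degree -/
def MD {n : ℕ} (P : SimpleGraph (Fin n) → Prop) (d : ℕ) : Prop :=
  ∃ G : SimpleGraph (Fin n), VT G ∧ Reg G d ∧ P G

/-- hypothesis: membership of vertex-transitive graphs depends only on the degree -/
def DD {n : ℕ} (P : SimpleGraph (Fin n) → Prop) : Prop :=
  ∀ (d : ℕ) (G H : SimpleGraph (Fin n)), VT G → VT H → Reg G d → Reg H d → (P G ↔ P H)

theorem PV_MD {n : ℕ} {P : SimpleGraph (Fin n) → Prop} (hD : DD P) {V : Type} (e : V ≃ Fin n)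
    (G : SimpleGraph V) (hG : VT G) (d : ℕ) (hd : Reg G d) : PV P V G ↔ MD P d := by
  constructor
  · rintro ⟨e', he'⟩
    exact ⟨_, hG.map e', hd.map e', he'⟩
  · rintro ⟨H, h1, h2, h3⟩
    refine ⟨e, ?_⟩
    exact (hD d _ _ h1 (hG.map e) h2 (hd.map e)).1 h3

theorem MD_mono {n : ℕ} {P : SimpleGraph (Fin n) → Prop}
    (hmono : ∀ G H : SimpleGraph (Fin n), G ≤ H → P G → P H) (hD : DD P) {V : Type}
    (e : V ≃ Fin n) {G H : SimpleGraph V} (hGH : G ≤ H) (hG : VT G) (hH : VT H) {d d' : ℕ}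
    (hd : Reg G d) (hd' : Reg H d') (h : MD P d) : MD P d' := by
  rw [← PV_MD hD e G hG d hd] at h
  rw [← PV_MD hD e H hH d' hd']
  obtain ⟨e', he'⟩ := h
  exact ⟨e', hmono _ _ (SimpleGraph.map_monotone _ hGH) he'⟩

theorem Reg_even {n d : ℕ} (G : SimpleGraph (Fin n)) (h : Reg G d) : Even (n * d) := by
  classical
  have h1 := G.sum_degrees_eq_twice_card_edges
  have h2 : ∀ v, G.degree v = d := by
    intro v
    rw [← h v, ← SimpleGraph.card_neighborSet_eq_degree, Set.ncard_eq_toFinset_card',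
      Set.toFinset_card]
  rw [Finset.sum_congr rfl fun v _ => h2 v, Finset.sum_const, Finset.card_univ, Fintype.card_fin,
    smul_eq_mul] at h1
  rw [h1]
  exact even_two_mul _

theorem Reg_lt {n d : ℕ} (hn : 0 < n) (G : SimpleGraph (Fin n)) (h : Reg G d) : d < n := by
  classical
  have h2 : G.degree ⟨0, hn⟩ = d := by
    rw [← h ⟨0, hn⟩, ← SimpleGraph.card_neighborSet_eq_degree, Set.ncard_eq_toFinset_card',
      Set.toFinset_card]
  rw [← h2]
  have := G.degree_lt_card_verts ⟨0, hn⟩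
  rwa [Fintype.card_fin] at this

/-! ### circulant graphs -/

/-- `{±1, …, ±k}` -/
def crc (n k : ℕ) : Finset (ZMod n) :=
  (Icc 1 k).image (fun j : ℕ => (j : ZMod n)) ∪ (Icc 1 k).image (fun j : ℕ => -(j : ZMod n))

theorem mem_crc (n k : ℕ) (x : ZMod n) :
    x ∈ crc n k ↔ ∃ j : ℕ, (1 ≤ j ∧ j ≤ k) ∧ ((j : ZMod n) = x ∨ -(j : ZMod n) = x) := by
  simp only [crc, mem_union, mem_image, mem_Icc]
  constructor
  · rintro (⟨j, h, h'⟩ | ⟨j, h, h'⟩)
    · exact ⟨j, h, Or.inl h'⟩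
    · exact ⟨j, h, Or.inr h'⟩
  · rintro ⟨j, h, h' | h'⟩
    · exact Or.inl ⟨j, h, h'⟩
    · exact Or.inr ⟨j, h, h'⟩

theorem cast_eq_zero_lt {n : ℕ} {j : ℕ} (hj : 0 < j) (hjn : j < n) : (j : ZMod n) ≠ 0 := by
  rw [Ne, ZMod.natCast_eq_zero_iff]
  exact fun h => absurd (Nat.le_of_dvd hj h) (not_le.2 hjn)

theorem crc_sy {n k : ℕ} (hk : 2 * k < n) : Sy (crc n k) := by
  constructor
  · rw [mem_crc]
    rintro ⟨j, ⟨h1, h2⟩, h | h⟩
    · exact cast_eq_zero_lt (by omega) (by omega) h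
    · exact cast_eq_zero_lt (n := n) (j := j) (by omega) (by omega) (neg_eq_zero.1 h)
  · intro a
    rw [mem_crc, mem_crc]
    rintro ⟨j, h, rfl | rfl⟩
    · exact ⟨j, h, Or.inr rfl⟩
    · exact ⟨j, h, Or.inl (neg_neg _).symm⟩

theorem crc_card {n k : ℕ} (hk : 2 * k < n) : (crc n k).card = 2 * k := by
  have hinj : Set.InjOn (fun j : ℕ => (j : ZMod n)) (Icc 1 k : Finset ℕ) := by
    intro i hi j hj h
    simp only [coe_Icc, Set.mem_Icc] at hi hj
    have h' : (i : ZMod n) = (j : ZMod n) := h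
    rw [ZMod.natCast_eq_natCast_iff, Nat.ModEq, Nat.mod_eq_of_lt (by omega),
      Nat.mod_eq_of_lt (by omega)] at h'
    exact h'
  rw [crc, Finset.card_union_of_disjoint, Finset.card_image_of_injOn hinj,
    Finset.card_image_of_injOn]
  · simp
    omega
  · intro i hi j hj h
    exact hinj hi hj (neg_injective h)
  · rw [Finset.disjoint_left]
    intro x hx hx'
    rw [mem_image] at hx hx'
    obtain ⟨i, hi, rfl⟩ := hx
    obtain ⟨j, hj, h⟩ := hx'
    rw [mem_Icc] at hi hj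
    have : ((i + j : ℕ) : ZMod n) = 0 := by
      push_cast
      rw [← h]
      ring
    exact cast_eq_zero_lt (by omega) (by omega) this

theorem crc_mono (n : ℕ) {k l : ℕ} (h : k ≤ l) : crc n k ⊆ crc n l := by
  intro x
  rw [mem_crc, mem_crc]
  rintro ⟨j, ⟨h1, h2⟩, h3⟩
  exact ⟨j, ⟨h1, h2.trans h⟩, h3⟩

/-- with the involution -/
theorem crc_inv_sy {n k : ℕ} (hn : Even n) (hk : 2 * k + 2 ≤ n) :
    Sy (insert ((n / 2 : ℕ) : ZMod n) (crc n k)) ∧
      (insert ((n / 2 : ℕ) : ZMod n) (crc n k)).card = 2 * k + 1 := by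
  obtain ⟨h, rfl⟩ := hn
  have h2 : (h + h) / 2 = h := by omega
  rw [h2]
  have h3 : -((h : ℕ) : ZMod (h + h)) = (h : ZMod (h + h)) := by
    rw [neg_eq_iff_add_eq_zero]
    have : ((h + h : ℕ) : ZMod (h + h)) = 0 := ZMod.natCast_self _
    push_cast at this
    exact this
  have hsy := crc_sy (n := h + h) (k := k) (by omega)
  refine ⟨⟨?_, ?_⟩, ?_⟩
  · rw [mem_insert]
    rintro (h4 | h4)
    · exact cast_eq_zero_lt (n := h + h) (j := h) (by omega) (by omega) h4.symm
    · exact hsy.zero h4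
  · intro a
    rw [mem_insert, mem_insert]
    rintro (rfl | h4)
    · exact Or.inl h3
    · exact Or.inr (hsy.neg _ h4)
  · rw [card_insert_of_notMem, crc_card (by omega)]
    rw [mem_crc]
    rintro ⟨j, ⟨h4, h5⟩, h6 | h6⟩
    · rw [ZMod.natCast_eq_natCast_iff, Nat.ModEq, Nat.mod_eq_of_lt (by omega),
        Nat.mod_eq_of_lt (by omega)] at h6
      omega
    · rw [neg_eq_iff_eq_neg, h3, ZMod.natCast_eq_natCast_iff, Nat.ModEq,
        Nat.mod_eq_of_lt (by omega), Nat.mod_eq_of_lt (by omega)] at h6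
      omega

end Pool.Agent.W332.Kd
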