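import Mathlib
import Pool.Agent.W332.Kd.Thr

set_option autoImplicit false

/-!
# The threshold degree (MP_257582_lc)
-/

namespace Pool.Agent.W332.Kd

open Finset
open Pool.Agent.H98R2.Ev (EV toG NE)
open Pool.Agent.H119R2.Kp

/-- parity on `ZMod n`, `n` even -/
def par {n : ℕ} (hn : 2 ∣ n) : ZMod n →+* ZMod 2 := ZMod.castHom hn (ZMod 2)

/-- the perfect matching `{2 i, 2 i + 1}` -/
def mat {n : ℕ} (hn : 2 ∣ n) (x y : ZMod n) : Prop :=
  (y = x + 1 ∧ par hn x = 0) ∨ (x = y + 1 ∧ par hn y = 0)

theorem mat_symm {n : ℕ} (hn : 2 ∣ n) (x y : ZMod n) : mat hn x y ↔ mat hn y x := by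
  unfold mat
  constructor
  · rintro (h | h)
    · exact Or.inr h
    · exact Or.inl h
  · rintro (h | h)
    · exact Or.inr h
    · exact Or.inl h

/-- the circulant graph `±1, …, ±k` minus the perfect matching -/
def circM {n : ℕ} (hn : 2 ∣ n) (k : ℕ) : SimpleGraph (ZMod n) where
  Adj x y := (cay (crc n k)).Adj x y ∧ ¬ mat hn x y
  symm := ⟨fun x y h => ⟨h.1.symm, fun h' => h.2 ((mat_symm hn x y).2 h')⟩⟩
  loopless := ⟨fun _ h => h.1.ne rfl⟩

theorem circM_le {n : ℕ} (hn : 2 ∣ n) (k : ℕ) : circM hn k ≤ cay (crc n k) := fun _ _ h => h.1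

theorem z2 (z : ZMod 2) : z = 0 ∨ z = 1 := by
  revert z
  decide

theorem mat_iff {n : ℕ} (hn : 2 ∣ n) (v x : ZMod n) :
    mat hn v x ↔ x = if par hn v = 0 then v + 1 else v - 1 := by
  unfold mat
  have h1 : par hn (v - 1) = par hn v - 1 := by rw [map_sub, map_one]
  by_cases h : par hn v = 0
  · rw [if_pos h]
    constructor
    · rintro (⟨h2, -⟩ | ⟨h2, h3⟩)
      · exact h2
      · exfalso
        rw [h2, map_add, map_one, h3] at h
        revert h
        decide
    · intro h2
      exact Or.inl ⟨h2, h⟩
  · rw [if_neg h]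
    have h4 : par hn v = 1 := (z2 _).resolve_left h
    constructor
    · rintro (⟨h2, h3⟩ | ⟨h2, h3⟩)
      · exact absurd h3 h
      · rw [h2]
        ring
    · intro h2
      refine Or.inr ⟨by rw [h2]; ring, ?_⟩
      rw [h2, h1, h4]
      decide

theorem circM_Reg {n : ℕ} (hn : 2 ∣ n) {k : ℕ} (hk1 : 1 ≤ k) (hk : 2 * k < n) :
    Reg (circM hn k) (2 * k - 1) := by
  intro v
  have hsy := crc_sy hk
  set w : ZMod n := if par hn v = 0 then v + 1 else v - 1 with hw
  have h1 : (circM hn k).neighborSet v = (cay (crc n k)).neighborSet v \ {w} := by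
    ext x
    rw [Set.mem_sdiff, Set.mem_singleton_iff, SimpleGraph.mem_neighborSet,
      SimpleGraph.mem_neighborSet, hw, ← mat_iff]
    rfl
  have h2 : w ∈ (cay (crc n k)).neighborSet v := by
    rw [SimpleGraph.mem_neighborSet, cay_adj hsy, mem_crc]
    refine ⟨1, ⟨le_refl _, hk1⟩, ?_⟩
    rw [hw]
    split_ifs
    · left
      push_cast
      ring
    · right
      push_cast
      ring
  rw [h1, Set.ncard_sdiff_singleton_of_mem h2, cay_Reg hsy, crc_card hk]

theorem circM_VT {n : ℕ} (hn : 2 ∣ n) {k : ℕ} (hk : 2 * k < n) : VT (circM hn k) := by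
  have hsy := crc_sy hk
  apply VT_of
  intro u v
  rcases z2 (par hn (v - u)) with h | h
  · refine ⟨Equiv.addRight (v - u), ?_, by simp⟩
    intro x y
    change (cay (crc n k)).Adj (x + (v - u)) (y + (v - u)) ∧ ¬ mat hn (x + (v - u)) (y + (v - u)) ↔
      (cay (crc n k)).Adj x y ∧ ¬ mat hn x y
    have e1 : (cay (crc n k)).Adj (x + (v - u)) (y + (v - u)) ↔ (cay (crc n k)).Adj x y := by
      rw [cay_adj hsy, cay_adj hsy]
      simp
    have e2 : mat hn (x + (v - u)) (y + (v - u)) ↔ mat hn x y := by
      unfold mat
      rw [map_add, map_add, h, add_zero, add_zero]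
      have a1 : y + (v - u) = x + (v - u) + 1 ↔ y = x + 1 := by
        constructor
        · intro h'
          have := congrArg (fun z => z - (v - u)) h'
          simp only [add_sub_cancel_right] at this
          rw [this]
          ring
        · rintro rfl
          ring
      have a2 : x + (v - u) = y + (v - u) + 1 ↔ x = y + 1 := by
        constructor
        · intro h'
          have := congrArg (fun z => z - (v - u)) h'
          simp only [add_sub_cancel_right] at this
          rw [this]
          ring
        · rintro rfl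
          ring
      rw [a1, a2]
    rw [e1, e2]
  · have h2 : par hn (u + v) = 1 := by
      have : u + v = (v - u) + 2 * u := by ring
      rw [this, map_add, h, map_mul]
      have h3 : par hn 2 = 0 := by
        rw [show (2 : ZMod n) = ((2 : ℕ) : ZMod n) by norm_cast, map_natCast]
        decide
      rw [h3, zero_mul, add_zero]
    refine ⟨Equiv.subLeft (u + v), ?_, by simp⟩
    intro x y
    change (cay (crc n k)).Adj ((u + v) - x) ((u + v) - y) ∧ ¬ mat hn ((u + v) - x) ((u + v) - y) ↔
      (cay (crc n k)).Adj x y ∧ ¬ mat hn x y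
    have e1 : (cay (crc n k)).Adj ((u + v) - x) ((u + v) - y) ↔ (cay (crc n k)).Adj x y := by
      rw [SimpleGraph.adj_comm, cay_adj hsy, cay_adj hsy]
      simp
    have e2 : mat hn ((u + v) - x) ((u + v) - y) ↔ mat hn x y := by
      rw [mat_symm hn x y]
      unfold mat
      rw [map_sub (par hn) (u + v) x, map_sub (par hn) (u + v) y, h2]
      have a1 : (u + v) - y = (u + v) - x + 1 ↔ x = y + 1 := by
        constructor
        · intro h'
          have : x = (u + v) + 1 - ((u + v) - x + 1) := by ring
          rw [this, ← h']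
          ring
        · rintro rfl
          ring
      have a2 : (u + v) - x = (u + v) - y + 1 ↔ y = x + 1 := by
        constructor
        · intro h'
          have : y = (u + v) + 1 - ((u + v) - y + 1) := by ring
          rw [this, ← h']
          ring
        · rintro rfl
          ring
      rw [a1, a2]
      constructor
      · rintro (⟨h3, h4⟩ | ⟨h3, h4⟩)
        · refine Or.inl ⟨h3, ?_⟩
          rw [h3, map_add, map_one] at h4
          rcases z2 (par hn y) with h5 | h5
          · exact h5
          · rw [h5] at h4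
            exact absurd h4 (by decide)
        · refine Or.inr ⟨h3, ?_⟩
          rw [h3, map_add, map_one] at h4
          rcases z2 (par hn x) with h5 | h5
          · exact h5
          · rw [h5] at h4
            exact absurd h4 (by decide)
      · rintro (⟨h3, h4⟩ | ⟨h3, h4⟩)
        · refine Or.inl ⟨h3, ?_⟩
          rw [h3, map_add, map_one, h4]
          decide
        · refine Or.inr ⟨h3, ?_⟩
          rw [h3, map_add, map_one, h4]
          decide
    rw [e1, e2]

/-- The threshold degree. -/
theorem threshold {n : ℕ} (hn : 2 ≤ n) {P : SimpleGraph (Fin n) → Prop}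
    (hmono : ∀ G H : SimpleGraph (Fin n), G ≤ H → P G → P H)
    (hex : ∃ G, P G) (hne : ∃ G, ¬ P G) (hD : DD P) :
    ∃ t : ℕ, t + 2 ≤ n ∧ ∀ (A : Type) [AddCommGroup A] [Fintype A], Fintype.card A = n →
      ∀ S : Finset A, Sy S → (PV P A (cay S) ↔ t + 1 ≤ S.card) := by
  have : NeZero n := ⟨by omega⟩
  have e : ZMod n ≃ Fin n := Fintype.equivFinOfCardEq (ZMod.card n)
  have htop : P ⊤ := by
    obtain ⟨G, hG⟩ := hex
    exact hmono _ _ le_top hG
  have hbot : ¬ P ⊥ := by
    obtain ⟨G, hG⟩ := hne
    exact fun h => hG (hmono _ _ bot_le h)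
  -- degree 0
  have hM0 : ¬ MD P 0 := by
    rintro ⟨G, -, h2, h3⟩
    apply hbot
    have : G = ⊥ := by
      ext u v
      constructor
      · intro h
        have h4 := h2 u
        rw [Set.ncard_eq_zero (Set.toFinite _)] at h4
        have : v ∈ G.neighborSet u := h
        rw [h4] at this
        exact absurd this (Set.notMem_empty v)
      · intro h
        exact absurd h (by simp)
    rwa [this] at h3
  -- degree n - 1
  have hMtop : MD P (n - 1) := by
    refine ⟨⊤, ?_, ?_, htop⟩
    · apply VT_of
      intro u v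
      refine ⟨Equiv.swap u v, ?_, Equiv.swap_apply_left u v⟩
      intro x y
      simp
    · intro v
      have : (⊤ : SimpleGraph (Fin n)).neighborSet v = {v}ᶜ := by
        ext x
        simp [eq_comm]
      rw [this, Set.ncard_compl, Set.ncard_singleton, Nat.card_eq_fintype_card, Fintype.card_fin]
  -- one step up for `n` even
  have hup : ∀ d, Even n → d + 1 < n → MD P d → MD P (d + 1) := by
    intro d hne' hd hM
    rcases Nat.even_or_odd d with he | ho
    · obtain ⟨k, hk⟩ := he
      have hk' : d = 2 * k := by omega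
      subst hk'
      have h1 := crc_inv_sy (n := n) (k := k) hne' (by
        obtain ⟨h, hh⟩ := hne'
        omega)
      have h2 := crc_sy (n := n) (k := k) (by omega)
      refine MD_mono hmono hD e (cay_mono (Finset.subset_insert _ _)) (cay_VT h2) (cay_VT h1.1)
        (by rw [← crc_card (n := n) (k := k) (by omega)]; exact cay_Reg h2)
        (by rw [← h1.2]; exact cay_Reg h1.1) hM
    · obtain ⟨k, hk⟩ := ho
      have hk2 : 2 * (k + 1) < n := by omega
      have h2 := crc_sy (n := n) (k := k + 1) hk2
      have h3 : d = 2 * (k + 1) - 1 := by omega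
      have h4 : d + 1 = 2 * (k + 1) := by omega
      rw [h4]
      refine MD_mono hmono hD e (circM_le hne'.two_dvd (k + 1)) (circM_VT hne'.two_dvd hk2)
        (cay_VT h2) (circM_Reg hne'.two_dvd (by omega) hk2)
        (by rw [← crc_card (n := n) (k := k + 1) hk2]; exact cay_Reg h2) ?_
      rw [← h3]
      exact hM
  -- two steps up for `n` odd
  have hup2 : ∀ k l, k ≤ l → 2 * l < n → MD P (2 * k) → MD P (2 * l) := by
    intro k l hkl hl hM
    have h2 := crc_sy (n := n) (k := k) (by omega)
    have h3 := crc_sy (n := n) (k := l) hl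
    exact MD_mono hmono hD e (cay_mono (crc_mono n hkl)) (cay_VT h2) (cay_VT h3)
      (by rw [← crc_card (n := n) (k := k) (by omega)]; exact cay_Reg h2)
      (by rw [← crc_card (n := n) (k := l) hl]; exact cay_Reg h3) hM
  classical
  have hexM : ∃ d, MD P d := ⟨_, hMtop⟩
  set t0 := Nat.find hexM with ht0
  have ht0M : MD P t0 := Nat.find_spec hexM
  have ht0pos : 0 < t0 := by
    rcases Nat.eq_zero_or_pos t0 with h | h
    · rw [h] at ht0M
      exact absurd ht0M hM0
    · exact h
  have ht0le : t0 ≤ n - 1 := Nat.find_min' hexM hMtop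
  refine ⟨t0 - 1, by omega, ?_⟩
  intro A _ _ hA S hS
  have e' : A ≃ Fin n := Fintype.equivFinOfCardEq hA
  rw [PV_MD hD e' _ (cay_VT hS) _ (cay_Reg hS)]
  have h1 : t0 - 1 + 1 = t0 := by omega
  rw [h1]
  constructor
  · intro h
    exact Nat.find_min' hexM h
  · intro h
    have hR : Reg ((cay S).map e'.toEmbedding) S.card := (cay_Reg hS).map e'
    have hlt : S.card < n := Reg_lt (by omega) _ hR
    rcases Nat.even_or_odd n with hev | hodd
    · -- induction
      have : ∀ j, t0 + j < n → MD P (t0 + j) := by
        intro j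
        induction j with
        | zero => intro _; exact ht0M
        | succ j ih =>
          intro hj
          exact hup (t0 + j) hev (by omega) (ih (by omega))
      have h3 := this (S.card - t0) (by omega)
      rwa [Nat.add_sub_cancel' h] at h3
    · have hS2 : Even S.card := by
        have := Reg_even _ hR
        rw [Nat.even_mul] at this
        exact this.resolve_left (Nat.not_even_iff_odd.2 hodd)
      have ht2 : Even t0 := by
        obtain ⟨G, _, hG, _⟩ := ht0M
        have := Reg_even _ hG
        rw [Nat.even_mul] at this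
        exact this.resolve_left (Nat.not_even_iff_odd.2 hodd)
      obtain ⟨a, ha⟩ := hS2
      obtain ⟨b, hb⟩ := ht2
      have ha' : S.card = 2 * a := by omega
      have hb' : t0 = 2 * b := by omega
      rw [ha']
      rw [hb'] at ht0M
      exact hup2 b a (by omega) (by omega) ht0M

end Pool.Agent.W332.Kd
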